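import Pool.Agent.H57.HB.Low2
import Pool.Agent.H92.HB.Stm3

/-!
# Module LOW of the project HB
-/

set_option autoImplicit false
set_option linter.all false

open NumberField IsDedekindDomain WeierstrassCurve WeierstrassCurve.Affine
open scoped Classical

namespace Pool.Agent.H57.HB

open Pool.Agent.TH115.GD hiding sh exists_aut
open Pool.Agent.Y125.DQ
open Pool.Agent.H92P
open Pool.Agent.H92.HB (S_LOW)

section num

variable {k F : Type} [Field k] [NumberField k] [Field F] [NumberField F] [Algebra k F]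
  {V : WeierstrassCurve k}
  {W : WeierstrassCurve F} (hV : V.map (algebraMap k k) = V) (hW : V.map (algebraMap k F) = W)
  (e : AlgebraicClosure k ≃ₐ[k] AlgebraicClosure F)

include hV hW in
theorem resC_cob {f : Pool.Agent.TH841.SH.D.Coch V} (hf : Pool.Agent.TH841.SH.D.IsCob V f) :
    Pool.Agent.TH841.SH.D.IsCob W (resC hV hW e f) := by
  obtain ⟨R, hR⟩ := hf
  obtain ⟨S, hS⟩ := tq_surj hW (AlgebraicClosure F) (act V (eh e) (tq hV (AlgebraicClosure k) R))
  refine ⟨S, fun σ => ?_⟩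
  apply tq_inj hW (AlgebraicClosure F)
  rw [resC_spec, map_sub, natF, hS, hR, map_sub, map_sub, natk, act_act, act_act]
  congr 1
  refine act_congr V (fun x => ?_) _
  show e (e.symm (σ (e x))) = σ (e x)
  rw [AlgEquiv.apply_symm_apply]

include hV hW in
theorem resC_ker [IsGalois k F] {p n : ℕ} (hp : p.Prime) (hn : Module.finrank k F = p ^ n)
    [Finite (EK F V)] (hc : ¬ p ∣ Nat.card (EK F V)) {f : Pool.Agent.TH841.SH.D.Coch V}
    (hf : Pool.Agent.TH841.SH.D.IsCoc V f)
    (h : Pool.Agent.TH841.SH.D.IsCob W (resC hV hW e f)) :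
    Pool.Agent.TH841.SH.D.IsCob V f := by
  obtain ⟨T0, hT0⟩ := h
  set g0 : (AlgebraicClosure k ≃ₐ[k] AlgebraicClosure k) → Pt V (AlgebraicClosure k) :=
    fun σ => tq hV (AlgebraicClosure k) (f σ) with hg0
  have hg0mul : ∀ σ τ, g0 (σ * τ) = g0 σ + act V (ak σ) (g0 τ) := by
    intro σ τ
    show tq hV (AlgebraicClosure k) (f (σ * τ)) = tq hV (AlgebraicClosure k) (f σ) +
      act V (ak σ) (tq hV (AlgebraicClosure k) (f τ))
    rw [hf.2, map_add, natk]
  obtain ⟨R, hR⟩ := cob_of_res (g := tf V e.symm g0) hp hn hc (tf_mul V e.symm hg0mul)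
    (T := tq hW (AlgebraicClosure F) T0) (fun σ => by
      rw [← natF, ← map_sub, ← hT0, resC_spec]
      rfl)
  obtain ⟨R0, hR0⟩ := tq_surj hV (AlgebraicClosure k) (act V (eh e.symm) R)
  refine ⟨R0, fun σ => ?_⟩
  apply tq_inj hV (AlgebraicClosure k)
  rw [map_sub, natk, hR0]
  exact tf_cob V e.symm hR σ

/-- the restriction of the locally trivial cocycles -/
noncomputable def resS : Pool.Agent.TH841.NF.D.shaCoc V →+ Pool.Agent.TH841.NF.D.shaCoc W where
  toFun f := ⟨resC hV hW e f.1, resC_sha hV hW e f.2⟩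
  map_zero' := Subtype.ext (map_zero (resC hV hW e))
  map_add' f g := Subtype.ext (map_add (resC hV hW e) f.1 g.1)

include hV hW in
/-- the restriction of the Tate-Shafarevich group is injective -/
theorem exists_res [IsGalois k F] {p n : ℕ} (hp : p.Prime) (hn : Module.finrank k F = p ^ n)
    [Finite (EK F V)] (hc : ¬ p ∣ Nat.card (EK F V)) :
    ∃ φ : Pool.Agent.TH841.NF.D.Sha V →+ Pool.Agent.TH841.NF.D.Sha W, Function.Injective φ := by
  haveI : Algebra.IsAlgebraic k (AlgebraicClosure F) :=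
    Algebra.IsAlgebraic.trans k F (AlgebraicClosure F)
  haveI : IsAlgClosure k (AlgebraicClosure F) := ⟨inferInstance, inferInstance⟩
  haveI : IsAlgClosure k (AlgebraicClosure k) := ⟨inferInstance, AlgebraicClosure.isAlgebraic k⟩
  let e : AlgebraicClosure k ≃ₐ[k] AlgebraicClosure F := IsAlgClosure.equiv k _ _
  let φ : (Pool.Agent.TH841.NF.D.shaCoc V) ⧸ (Pool.Agent.TH841.SH.D.cob V).addSubgroupOf
      (Pool.Agent.TH841.NF.D.shaCoc V) →+
      (Pool.Agent.TH841.NF.D.shaCoc W) ⧸ (Pool.Agent.TH841.SH.D.cob W).addSubgroupOf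
      (Pool.Agent.TH841.NF.D.shaCoc W) :=
    QuotientAddGroup.map _ _ (resS hV hW e) (by
      intro f hf
      rw [AddSubgroup.mem_addSubgroupOf] at hf
      rw [AddSubgroup.mem_comap, AddSubgroup.mem_addSubgroupOf]
      exact resC_cob hV hW e hf)
  have hφ : Function.Injective φ := by
    rw [injective_iff_map_eq_zero]
    intro s hs
    obtain ⟨f, rfl⟩ := QuotientAddGroup.mk_surjective s
    have h1 : φ (QuotientAddGroup.mk f) = QuotientAddGroup.mk (resS hV hW e f) := rfl
    rw [h1, QuotientAddGroup.eq_zero_iff, AddSubgroup.mem_addSubgroupOf] at hs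
    rw [QuotientAddGroup.eq_zero_iff, AddSubgroup.mem_addSubgroupOf]
    exact resC_ker hV hW e hp hn hc f.2.1 hs
  exact ⟨φ, hφ⟩

end num

/-- the `p`-primary part -/
def tp (p : ℕ) (A : Type) [AddCommGroup A] : AddSubgroup A where
  carrier := {s | ∃ i : ℕ, (p ^ i : ℕ) • s = 0}
  zero_mem' := ⟨0, smul_zero _⟩
  add_mem' := by
    rintro a b ⟨i, hi⟩ ⟨j, hj⟩
    refine ⟨i + j, ?_⟩
    rw [smul_add, pow_add, mul_smul (p ^ i) (p ^ j) b, hj, smul_zero, add_zero,
      mul_comm, mul_smul, hi, smul_zero]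
  neg_mem' := by
    rintro a ⟨i, hi⟩
    exact ⟨i, by rw [smul_neg, hi, neg_zero]⟩

theorem card_tp {A B : Type} [AddCommGroup A] [AddCommGroup B] (p : ℕ) (φ : A →+ B)
    (hφ : Function.Injective φ) : Nat.card {s : A // ∃ i : ℕ, (p ^ i : ℕ) • s = 0} ∣
      Nat.card {s : B // ∃ i : ℕ, (p ^ i : ℕ) • s = 0} := by
  let ψ : tp p A →+ tp p B :=
    { toFun := fun s => ⟨φ s.1, by
        obtain ⟨i, hi⟩ := s.2
        exact ⟨i, by rw [← map_nsmul, hi, map_zero]⟩⟩
      map_zero' := Subtype.ext (map_zero φ)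
      map_add' := fun s t => Subtype.ext (map_add φ s.1 t.1) }
  have hψ : Function.Injective ψ := fun s t h => Subtype.ext (hφ (congrArg Subtype.val h))
  have h : Nat.card (tp p A) ∣ Nat.card (tp p B) := AddSubgroup.card_dvd_of_injective ψ hψ
  exact h

theorem t_LOW : S_LOW := by
  intro k F _ _ _ _ _ _ p n hp hn a b hab hfin hc hS
  have hV : (cu k a b).map (algebraMap k k) = cu k a b := by
    rw [Algebra.algebraMap_self, WeierstrassCurve.map_id]
  have hW : (cu k a b).map (algebraMap k F) = cu F a b := cu_map a b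
  have e1 : (cu k a b).baseChange F = cu F a b := hW
  haveI h2 : Finite (Pt (cu k a b) F) := cast_fin e1.symm hfin
  obtain ⟨e4⟩ := exists_EK (K := F) (V := cu k a b)
  haveI hfinK : Finite (EK F (cu k a b)) := Finite.of_equiv _ e4
  have hcK : ¬ p ∣ Nat.card (EK F (cu k a b)) := by
    rw [← Nat.card_congr e4]
    intro h
    apply hc
    rw [← cast_card e1]
    exact h
  obtain ⟨φ, hφ⟩ := exists_res hV hW hp hn hcK
  exact card_tp p φ hφ

end Pool.Agent.H57.HB
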