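import Pool.Agent.H92P.Gk3

/-!
# The restriction of the Tate-Shafarevich group: local triviality, and the kernel
-/

set_option autoImplicit false
set_option linter.all false

open NumberField IsDedekindDomain WeierstrassCurve WeierstrassCurve.Affine
open scoped Classical

namespace Pool.Agent.H57.HB

open Pool.Agent.TH115.GD hiding sh
open Pool.Agent.Y125.DQ
open Pool.Agent.H92P

/-! ### 1. Local triviality of the restriction -/

section locup

variable {k F : Type} [Field k] [Field F] [Algebra k F] {V : WeierstrassCurve k}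
  {W : WeierstrassCurve F} (hV : V.map (algebraMap k k) = V) (hW : V.map (algebraMap k F) = W)
  (e : AlgebraicClosure k ≃ₐ[k] AlgebraicClosure F)

theorem loc_up [CharZero k] {L0 L : Type} [Field L0] [Field L] [CharZero L0] [Algebra k L0] [Algebra F L] [Algebra k L]
    [IsScalarTower k F L] (j : L0 →+* L)
    (hj : ∀ x : k, j (algebraMap k L0 x) = algebraMap F L (algebraMap k F x))
    {f : Pool.Agent.TH841.SH.D.Coch V} (hf : Pool.Agent.TH841.SH.D.LocTriv V L0 f)
    {f' : Pool.Agent.TH841.SH.D.Coch W}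
    (hf' : ∀ σ : AlgebraicClosure F ≃ₐ[F] AlgebraicClosure F,
      tq hW (AlgebraicClosure F) (f' σ) =
      act V (eh e) (tq hV (AlgebraicClosure k) (f (e.symm.autCongr (σ.restrictScalars k))))) :
    Pool.Agent.TH841.SH.D.LocTriv W L f' := by
  intro ι
  haveI : IsAlgClosure k (AlgebraicClosure k) := ⟨inferInstance, AlgebraicClosure.isAlgebraic k⟩
  haveI : Normal k (AlgebraicClosure k) := IsAlgClosure.normal k _
  haveI : IsAlgClosure L0 (AlgebraicClosure L0) := ⟨inferInstance, AlgebraicClosure.isAlgebraic L0⟩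
  haveI : Normal L0 (AlgebraicClosure L0) := IsAlgClosure.normal L0 _
  letI : Algebra L0 (AlgebraicClosure L) := ((algebraMap L (AlgebraicClosure L)).comp j).toAlgebra
  have hal : ∀ x : L0, algebraMap L0 (AlgebraicClosure L) x = algebraMap L _ (j x) := fun x => rfl
  have hkL : ∀ x : k, algebraMap k (AlgebraicClosure L) x =
      algebraMap L _ (algebraMap F L (algebraMap k F x)) := by
    intro x
    rw [IsScalarTower.algebraMap_apply k L (AlgebraicClosure L),
      IsScalarTower.algebraMap_apply k F L]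
  let κ' : AlgebraicClosure L0 →ₐ[L0] AlgebraicClosure L := IsAlgClosed.lift
  have hκ' : ∀ y : L0, κ' (algebraMap _ _ y) = algebraMap L _ (j y) := fun y => κ'.commutes y
  let κk : AlgebraicClosure L0 →ₐ[k] AlgebraicClosure L :=
    { κ'.toRingHom with
      commutes' := fun x => by
        show κ' (algebraMap k (AlgebraicClosure L0) x) = _
        rw [IsScalarTower.algebraMap_apply k L0 (AlgebraicClosure L0), hκ', hj, hkL] }
  have hκk : ∀ y, κk y = κ' y := fun y => rfl
  let ιk : AlgebraicClosure F →ₐ[k] AlgebraicClosure L := ι.restrictScalars k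
  let ι1 : AlgebraicClosure k →ₐ[k] AlgebraicClosure L0 := IsAlgClosed.lift
  obtain ⟨ρ, hρ⟩ := Pool.Agent.Y125.DQ.exists_aut (ιk.comp (eh e)) (κk.comp ι1)
  let ι0 : AlgebraicClosure k →ₐ[k] AlgebraicClosure L0 := ι1.comp (ak ρ)
  have hι0 : ∀ x, κk (ι0 x) = ιk (e x) := fun x => (hρ x).symm
  obtain ⟨P0, hP0⟩ := hf ι0
  obtain ⟨P, hP⟩ := tq_surj hW (AlgebraicClosure L) (act V κk (tq hV (AlgebraicClosure L0) P0))
  refine ⟨P, fun τ σ hτσ => ?_⟩
  -- the automorphism of the closure of `L0`
  let τk : AlgebraicClosure L →ₐ[k] AlgebraicClosure L := τ.toAlgHom.restrictScalars k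
  let τ1 : AlgebraicClosure L →ₐ[L0] AlgebraicClosure L :=
    { τ.toRingEquiv.toRingHom with
      commutes' := fun x => by
        show τ (algebraMap L0 (AlgebraicClosure L) x) = _
        rw [hal, τ.commutes] }
  have hτ1 : ∀ x, τ1 x = τ x := fun x => rfl
  obtain ⟨ρ', hρ'⟩ := Pool.Agent.Y125.DQ.exists_aut (τ1.comp κ') κ'
  have hρ'' : ∀ y, τ (κ' y) = κ' (ρ' y) := fun y => hρ' y
  set σ0 : AlgebraicClosure k ≃ₐ[k] AlgebraicClosure k := e.symm.autCongr (σ.restrictScalars k)
    with hσ0
  have hσ0' : ∀ x, e (σ0 x) = σ (e x) := by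
    intro x
    show e (e.symm (σ (e x))) = _
    rw [AlgEquiv.apply_symm_apply]
  have h1 := hP0 ρ' σ0 (fun x => by
    apply κ'.injective
    show κ' (ρ' (ι0 x)) = κ' (ι0 (σ0 x))
    rw [← hρ'', ← hκk, ← hκk, hι0, hι0, hσ0']
    exact hτσ (e x))
  have h2 := congrArg (fun z => act V κk (tq hV (AlgebraicClosure L0) z)) h1
  have e1 := tq_act hV ι0 ι0 (fun x => rfl) (f σ0)
  have e2 := tq_act hV (ρ'.toAlgHom.restrictScalars k) (ρ'.toAlgHom.restrictScalars k)
    (fun x => rfl) P0
  have h3 : act V κk (act V ι0 (tq hV (AlgebraicClosure k) (f σ0))) =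
      act V κk (act V (ρ'.toAlgHom.restrictScalars k) (tq hV (AlgebraicClosure L0) P0)) -
      act V κk (tq hV (AlgebraicClosure L0) P0) := by
    refine Eq.trans (congrArg (act V κk) e1.symm) (h2.trans ?_)
    show act V κk (tq hV (AlgebraicClosure L0) (_ - _)) = _
    rw [map_sub, map_sub]
    exact congrArg (fun z => act V κk z - act V κk (tq hV (AlgebraicClosure L0) P0)) e2
  apply tq_inj hW (AlgebraicClosure L)
  have e3 := tq_act hW ι ιk (fun x => rfl) (f' σ)
  have e4 := tq_act hW (τ.toAlgHom.restrictScalars F) τk (fun x => rfl) P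
  refine e3.trans ?_
  rw [map_sub]
  refine Eq.trans ?_ (congrArg (fun z => z - tq hW (AlgebraicClosure L) P) e4).symm
  rw [hP, hf' σ, act_act, act_act]
  rw [act_act, act_act] at h3
  have c1 : (ιk.comp (eh e)) = κk.comp ι0 := AlgHom.ext fun x => (hι0 x).symm
  have c2 : κk.comp (ρ'.toAlgHom.restrictScalars k) = τk.comp κk :=
    AlgHom.ext fun x => (hρ'' x).symm
  rw [c1, ← hσ0, h3, c2]

end locup

end Pool.Agent.H57.HB
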