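import Pool.Agent.H92P.Gk3

/-!
# The classes over `k` which become trivial over the Galois extension `F`
-/

set_option autoImplicit false
set_option linter.all false

open NumberField IsDedekindDomain WeierstrassCurve WeierstrassCurve.Affine
open scoped Classical

namespace Pool.Agent.H57.HB

open Pool.Agent.TH115.GD hiding sh exists_aut
open Pool.Agent.Y125.DQ
open Pool.Agent.H92P

section ker

variable {k K : Type} [Field k] [NumberField k] [Field K] [NumberField K] [Algebra k K]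
  {V : WeierstrassCurve k} [IsGalois k K]

theorem res_one (ρ : AlgebraicClosure K ≃ₐ[K] AlgebraicClosure K) :
    (AlgEquiv.restrictNormalHom K : (AlgebraicClosure K ≃ₐ[k] AlgebraicClosure K) →*
      (K ≃ₐ[k] K)) (ρ.restrictScalars k) = 1 := by
  ext x
  apply (algebraMap K (AlgebraicClosure K)).injective
  have h := AlgEquiv.restrictNormal_commutes (ρ.restrictScalars k) K x
  refine h.trans ?_
  exact ρ.commutes x

theorem cob_of_res {p n : ℕ} (hp : p.Prime) (hn : Module.finrank k K = p ^ n) [Finite (EK K V)]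
    (hc : ¬ p ∣ Nat.card (EK K V))
    {g : (AlgebraicClosure K ≃ₐ[k] AlgebraicClosure K) → Pt V (AlgebraicClosure K)}
    (hg : ∀ σ τ, g (σ * τ) = g σ + act V (ak σ) (g τ)) {T : Pt V (AlgebraicClosure K)}
    (hT : ∀ σ : AlgebraicClosure K ≃ₐ[K] AlgebraicClosure K,
      g (σ.restrictScalars k) = act V (rs k σ) T - T) :
    ∃ R : Pt V (AlgebraicClosure K), ∀ σ, g σ = act V (ak σ) R - R := by
  set π : (AlgebraicClosure K ≃ₐ[k] AlgebraicClosure K) →* (K ≃ₐ[k] K) :=
    AlgEquiv.restrictNormalHom K with hπ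
  have hπs : Function.Surjective π := AlgEquiv.restrictNormalHom_surjective (AlgebraicClosure K)
  set h : (AlgebraicClosure K ≃ₐ[k] AlgebraicClosure K) → Pt V (AlgebraicClosure K) :=
    fun σ => g σ - (act V (ak σ) T - T) with hh
  have hmul : ∀ σ τ, h (σ * τ) = h σ + act V (ak σ) (h τ) := by
    intro σ τ
    show g (σ * τ) - (act V (ak (σ * τ)) T - T) = g σ - (act V (ak σ) T - T) +
      act V (ak σ) (g τ - (act V (ak τ) T - T))
    rw [hg, act_mul', map_sub, map_sub]
    abel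
  have h0 : ∀ σ : AlgebraicClosure K ≃ₐ[K] AlgebraicClosure K, h (σ.restrictScalars k) = 0 := by
    intro σ
    show g (σ.restrictScalars k) - (act V (ak (σ.restrictScalars k)) T - T) = 0
    rw [hT σ]
    exact sub_self _
  have h1 : ∀ τ, π τ = 1 → h τ = 0 := by
    intro τ hτ
    obtain ⟨σ0, rfl⟩ := of_one hτ
    exact h0 σ0
  have h2 : ∀ σ σ', π σ = π σ' → h σ = h σ' := by
    intro σ σ' hs
    have e1 : σ' = σ * (σ⁻¹ * σ') := by group
    have e2 : h (σ⁻¹ * σ') = 0 := h1 _ (by rw [map_mul, map_inv, hs, inv_mul_cancel])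
    rw [e1, hmul, e2, map_zero, add_zero]
  have h3 : ∀ σ, h σ ∈ EK K V := by
    intro σ ρ
    have e1 := hmul (ρ.restrictScalars k) σ
    rw [h0, zero_add] at e1
    have e2 : h (ρ.restrictScalars k * σ) = h σ := h2 _ _ (by
      rw [map_mul, hπ, res_one, one_mul])
    rw [e2] at e1
    exact e1.symm
  haveI : Fintype (K ≃ₐ[k] K) := Fintype.ofFinite _
  set s : (K ≃ₐ[k] K) → (AlgebraicClosure K ≃ₐ[k] AlgebraicClosure K) := Function.surjInv hπs
  have hs : ∀ x, π (s x) = x := Function.surjInv_eq hπs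
  set S : Pt V (AlgebraicClosure K) := ∑ x : (K ≃ₐ[k] K), h (s x) with hS
  have hcard : Fintype.card (K ≃ₐ[k] K) = p ^ n := by
    rw [← hn, ← Nat.card_eq_fintype_card]
    exact IsGalois.card_aut_eq_finrank k K
  have h4 : ∀ σ, S = (p ^ n : ℕ) • h σ + act V (ak σ) S := by
    intro σ
    have e1 : ∑ x : (K ≃ₐ[k] K), h (s (π σ * x)) = S :=
      Equiv.sum_comp (Equiv.mulLeft (π σ)) (fun x => h (s x))
    have e2 : ∀ x : (K ≃ₐ[k] K), h (s (π σ * x)) = h σ + act V (ak σ) (h (s x)) := by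
      intro x
      rw [← hmul]
      apply h2
      rw [hs, map_mul, hs]
    have e3 : act V (ak σ) S = ∑ x : (K ≃ₐ[k] K), act V (ak σ) (h (s x)) := by
      rw [hS, map_sum]
    rw [e3, ← e1, Finset.sum_congr rfl (fun x _ => e2 x), Finset.sum_add_distrib,
      Finset.sum_const, Finset.card_univ, hcard]
  obtain ⟨u, v, huv⟩ : IsCoprime ((p ^ n : ℕ) : ℤ) (Nat.card (EK K V) : ℤ) :=
    Nat.isCoprime_iff_coprime.2 (((Nat.Prime.coprime_iff_not_dvd hp).2 hc).pow_left n)
  have hkill : ∀ P ∈ EK K V, (Nat.card (EK K V) : ℤ) • P = 0 := by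
    intro P hP
    have h1 : Nat.card (EK K V) • (⟨P, hP⟩ : EK K V) = 0 := card_nsmul_eq_zero'
    have h2 : Nat.card (EK K V) • P = 0 := congrArg Subtype.val h1
    rw [natCast_zsmul, h2]
  refine ⟨T - u • S, fun σ => ?_⟩
  have e1 : ((p ^ n : ℕ) : ℤ) • h σ = S - act V (ak σ) S := by
    rw [natCast_zsmul, eq_sub_iff_add_eq]
    exact (h4 σ).symm
  have e2 : h σ = u • (S - act V (ak σ) S) := by
    calc h σ = (u * ((p ^ n : ℕ) : ℤ) + v * (Nat.card (EK K V) : ℤ)) • h σ := by
          rw [huv, one_smul]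
      _ = _ := by rw [add_smul, mul_smul, mul_smul, hkill _ (h3 σ), smul_zero, add_zero, e1]
  have e3 : g σ = h σ + (act V (ak σ) T - T) := (sub_add_cancel _ _).symm
  rw [e3, e2, map_sub, map_zsmul, smul_sub]
  abel

end ker

end Pool.Agent.H57.HB
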