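import Pool.Agent.H57.HB.Low0
import Pool.Agent.H57.HB.Low1
import Pool.Graph.R_seed8.TH115.TC.Compl
import Pool.Graph.R_seed8.TH115.TC.Cob

/-!
# The restriction of the Tate-Shafarevich group is injective
-/

set_option autoImplicit false
set_option linter.all false

open NumberField IsDedekindDomain WeierstrassCurve WeierstrassCurve.Affine
open scoped Classical

namespace Pool.Agent.H57.HB

open Pool.Agent.TH115.GD hiding sh exists_aut
open Pool.Agent.Y125.DQ
open Pool.Agent.H92P

section res

variable {k F : Type} [Field k] [Field F] [Algebra k F] {V : WeierstrassCurve k}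
  {W : WeierstrassCurve F} (hV : V.map (algebraMap k k) = V) (hW : V.map (algebraMap k F) = W)
  (e : AlgebraicClosure k ≃ₐ[k] AlgebraicClosure F)

/-- the comparison of the points -/
noncomputable def tqe (L : Type) [Field L] [Algebra k L] [Algebra F L] [IsScalarTower k F L] :
    Pool.Agent.TH841.SH.D.Pt W L ≃+ Pt V L :=
  AddEquiv.ofBijective (tq hW L) ⟨tq_inj hW L, fun Q => tq_surj hW L Q⟩

theorem tqe_symm (L : Type) [Field L] [Algebra k L] [Algebra F L] [IsScalarTower k F L]
    (P : Pt V L) : tq hW L ((tqe hW L).symm P) = P := (tqe hW L).apply_symm_apply P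

/-- the restriction of the cochains -/
noncomputable def resC : Pool.Agent.TH841.SH.D.Coch V →+ Pool.Agent.TH841.SH.D.Coch W where
  toFun f := fun σ => (tqe hW (AlgebraicClosure F)).symm
    (act V (eh e) (tq hV (AlgebraicClosure k) (f (e.symm.autCongr (σ.restrictScalars k)))))
  map_zero' := by
    funext σ
    show (tqe hW (AlgebraicClosure F)).symm (act V (eh e) (tq hV (AlgebraicClosure k) 0)) = 0
    rw [map_zero, map_zero, map_zero]
  map_add' f g := by
    funext σ
    show (tqe hW (AlgebraicClosure F)).symm (act V (eh e) (tq hV (AlgebraicClosure k)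
      (f (e.symm.autCongr (σ.restrictScalars k)) + g (e.symm.autCongr (σ.restrictScalars k))))) = _
    rw [map_add, map_add, map_add]
    rfl

theorem resC_spec (f : Pool.Agent.TH841.SH.D.Coch V)
    (σ : AlgebraicClosure F ≃ₐ[F] AlgebraicClosure F) :
    tq hW (AlgebraicClosure F) (resC hV hW e f σ) =
      act V (eh e) (tq hV (AlgebraicClosure k) (f (e.symm.autCongr (σ.restrictScalars k)))) :=
  tqe_symm hW _ _

end res

section num

variable {k F : Type} [Field k] [NumberField k] [Field F] [NumberField F] [Algebra k F]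
  {V : WeierstrassCurve k}
  {W : WeierstrassCurve F} (hV : V.map (algebraMap k k) = V) (hW : V.map (algebraMap k F) = W)
  (e : AlgebraicClosure k ≃ₐ[k] AlgebraicClosure F)

theorem natk (σ : AlgebraicClosure k ≃ₐ[k] AlgebraicClosure k)
    (R : Pool.Agent.TH841.SH.D.Pt V (AlgebraicClosure k)) :
    tq hV (AlgebraicClosure k) (Pool.Agent.TH841.SH.D.act V σ.toAlgHom R) =
      act V (ak σ) (tq hV (AlgebraicClosure k) R) :=
  tq_act hV σ.toAlgHom (ak σ) (fun x => rfl) R

theorem natF (σ : AlgebraicClosure F ≃ₐ[F] AlgebraicClosure F)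
    (R : Pool.Agent.TH841.SH.D.Pt W (AlgebraicClosure F)) :
    tq hW (AlgebraicClosure F) (Pool.Agent.TH841.SH.D.act W σ.toAlgHom R) =
      act V (rs k σ) (tq hW (AlgebraicClosure F) R) :=
  tq_act hW σ.toAlgHom (rs k σ) (fun x => rfl) R

/-- the embedding of the completions at the finite places -/
theorem fin_emb (w : HeightOneSpectrum (𝓞 F)) :
    ∃ j : (w.under (𝓞 k)).adicCompletion k →+* w.adicCompletion F,
      ∀ x : k, j (algebraMap k _ x) = algebraMap F _ (algebraMap k F x) := by
  let v : HeightOneSpectrum (𝓞 k) := w.under (𝓞 k)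
  haveI hlo : w.asIdeal.LiesOver v.asIdeal := ⟨rfl⟩
  have hval : ∀ x : k, v.valuation k x ^ v.asIdeal.ramificationIdx' w.asIdeal =
      w.valuation F (algebraMap k F x) := fun x =>
    HeightOneSpectrum.valuation_liesOver (A := 𝓞 k) F v w x
  have he : v.asIdeal.ramificationIdx' w.asIdeal ≠ 0 :=
    Ideal.IsDedekindDomain.ramificationIdx'_ne_zero_of_liesOver w.asIdeal v.ne_bot
  obtain ⟨j, hj1, hj2, hj3⟩ := exists_compl_map v w (algebraMap k F)
    (fun x hx => by rw [← hval]; exact pow_le_one₀ zero_le hx)
    (fun x hx => by rw [← hval]; exact pow_lt_one₀ zero_le hx he)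
  exact ⟨j, hj1⟩

theorem resC_sha {f : Pool.Agent.TH841.SH.D.Coch V} (hf : Pool.Agent.TH841.NF.D.IsShaCoc V f) :
    Pool.Agent.TH841.NF.D.IsShaCoc W (resC hV hW e f) := by
  haveI : Algebra.IsAlgebraic k (AlgebraicClosure F) :=
    Algebra.IsAlgebraic.trans k F (AlgebraicClosure F)
  haveI : IsAlgClosure k (AlgebraicClosure F) := ⟨inferInstance, inferInstance⟩
  haveI : Normal k (AlgebraicClosure F) := IsAlgClosure.normal k _
  haveI : IsGalois k (AlgebraicClosure F) := IsAlgClosure.isGalois k _
  refine ⟨⟨?_, ?_⟩, fun w => ?_, fun w => ?_⟩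
  · have hcont : Continuous (fun σ : AlgebraicClosure F ≃ₐ[F] AlgebraicClosure F =>
        e.symm.autCongr (σ.restrictScalars k)) :=
      (cont_aut e.symm).comp (cont_rs (F := k) (M := F) (Ω := AlgebraicClosure F))
    exact (hf.1.1.comp_continuous hcont).comp (fun P => (tqe hW (AlgebraicClosure F)).symm
      (act V (eh e) (tq hV (AlgebraicClosure k) P)))
  · intro σ τ
    apply tq_inj hW (AlgebraicClosure F)
    rw [map_add, natF, resC_spec, resC_spec, resC_spec]
    have e1 : e.symm.autCongr ((σ * τ).restrictScalars k) =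
        e.symm.autCongr (σ.restrictScalars k) * e.symm.autCongr (τ.restrictScalars k) := by
      rw [← map_mul]
      rfl
    rw [e1, hf.1.2, map_add, map_add, natk, act_act, act_act]
    congr 1
    refine act_congr V (fun x => ?_) _
    show e (e.symm (σ (e x))) = σ (e x)
    rw [AlgEquiv.apply_symm_apply]
  · obtain ⟨j, hj⟩ := fin_emb (k := k) w
    haveI : CharZero ((w.under (𝓞 k)).adicCompletion k) :=
      charZero_of_injective_algebraMap (algebraMap k _).injective
    exact loc_up hV hW e j hj (hf.2.1 (w.under (𝓞 k))) (fun σ => resC_spec hV hW e f σ)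
  · haveI hlo : w.LiesOver (w.comap (algebraMap k F)) := ⟨rfl⟩
    letI : Algebra k w.Completion := ((algebraMap F w.Completion).comp (algebraMap k F)).toAlgebra
    haveI : IsScalarTower k F w.Completion := IsScalarTower.of_algebraMap_eq fun x => rfl
    haveI : CharZero (w.comap (algebraMap k F)).Completion :=
      charZero_of_injective_algebraMap (algebraMap k _).injective
    refine loc_up hV hW e (L0 := (w.comap (algebraMap k F)).Completion) (L := w.Completion)
      (NumberField.LiesOver.completionMap (v := w.comap (algebraMap k F)) (w := w)) ?_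
      (hf.2.2 (w.comap (algebraMap k F))) (fun σ => resC_spec hV hW e f σ)
    intro x
    have h : algebraMap k (w.comap (algebraMap k F)).Completion x =
      ((WithAbs.toAbs (w.comap (algebraMap k F)).1 x : WithAbs (w.comap (algebraMap k F)).1) :
        (w.comap (algebraMap k F)).Completion) := rfl
    have h' : algebraMap F w.Completion (algebraMap k F x) =
      ((WithAbs.toAbs w.1 (algebraMap k F x) : WithAbs w.1) : w.Completion) := rfl
    rw [h, h', NumberField.LiesOver.completionMap_coe]
    simp [WithAbs.algebraMap_left_apply, WithAbs.algebraMap_right_apply]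

end num

end Pool.Agent.H57.HB
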