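import Mathlib

set_option autoImplicit false

namespace Pool.Agent.H57.HB

theorem val0 (p : ℕ) (hp : p.Prime) (w v : ℕ) (hwv : w ≤ v) (I : Type) [Finite I] (Φ : I → ℂ)
    (hΦ : ∀ i, ∃ y : integralClosure ℤ ℂ, Φ i = (p : ℂ) ^ w + (p : ℂ) ^ (v + 1) * y)
    (m : ℤ) (hm : (m : ℂ) = ∏ᶠ i, Φ i) (c : ℕ) (hc : ∃ k, c ∣ p ^ k) (hcm : (c : ℤ) ∣ m) :
    c ∣ p ^ (w * Nat.card I) := by
  classical
  have := Fintype.ofFinite I
  have hp0 : (p : ℂ) ≠ 0 := by exact_mod_cast hp.ne_zero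
  choose y hy using hΦ
  -- the product
  have hprod : ∃ z : integralClosure ℤ ℂ,
      (∏ i, (1 + (p : ℂ) * ((p : ℂ) ^ (v - w) * (y i : ℂ)))) = 1 + (p : ℂ) * (z : ℂ) := by
    apply Finset.prod_induction (fun i => (1 + (p : ℂ) * ((p : ℂ) ^ (v - w) * (y i : ℂ))))
      (fun x : ℂ => ∃ z : integralClosure ℤ ℂ, x = 1 + (p : ℂ) * (z : ℂ))
    · rintro a b ⟨za, rfl⟩ ⟨zb, rfl⟩
      refine ⟨za + zb + (p : integralClosure ℤ ℂ) * za * zb, ?_⟩
      push_cast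
      ring
    · exact ⟨0, by simp⟩
    · intro i _
      refine ⟨(p : integralClosure ℤ ℂ) ^ (v - w) * y i, ?_⟩
      push_cast
      rfl
  obtain ⟨z, hz⟩ := hprod
  have hm2 : (m : ℂ) = (p : ℂ) ^ (w * Nat.card I) * (1 + (p : ℂ) * (z : ℂ)) := by
    rw [hm, finprod_eq_prod_of_fintype, ← hz]
    have h1 : ∀ i, Φ i = (p : ℂ) ^ w * (1 + (p : ℂ) * ((p : ℂ) ^ (v - w) * (y i : ℂ))) := by
      intro i
      rw [hy i]
      have h2 : v + 1 = w + (1 + (v - w)) := by omega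
      rw [h2, pow_add, pow_add]
      ring
    rw [Finset.prod_congr rfl (fun i _ => h1 i), Finset.prod_mul_distrib, Finset.prod_const,
      Finset.card_univ, Nat.card_eq_fintype_card, ← pow_mul]
  obtain ⟨k, hk⟩ := hc
  obtain ⟨j, hj, rfl⟩ := (Nat.dvd_prime_pow hp).1 hk
  by_contra hcon
  have hlt : w * Nat.card I < j := by
    by_contra h
    exact hcon (pow_dvd_pow p (not_lt.1 h))
  obtain ⟨m1, hm1⟩ := hcm
  have hm3 : (p : ℂ) ^ (w * Nat.card I) * (1 + (p : ℂ) * (z : ℂ)) =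
      (p : ℂ) ^ (w * Nat.card I) * ((p : ℂ) * ((p : ℂ) ^ (j - w * Nat.card I - 1) * (m1 : ℂ))) := by
    rw [← hm2, hm1]
    have h2 : j = w * Nat.card I + (1 + (j - w * Nat.card I - 1)) := by omega
    push_cast
    conv_lhs => rw [h2]
    rw [pow_add, pow_add]
    ring
  have hm4 := mul_left_cancel₀ (pow_ne_zero _ hp0) hm3
  set u : integralClosure ℤ ℂ := (p : integralClosure ℤ ℂ) ^ (j - w * Nat.card I - 1) *
    (m1 : integralClosure ℤ ℂ) - z with hu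
  have hu1 : (p : ℂ) * (u : ℂ) = 1 := by
    rw [hu]
    push_cast
    linear_combination -hm4
  have hint : IsIntegral ℤ (u : ℂ) := u.2
  have hu2 : (u : ℂ) = algebraMap ℚ ℂ ((p : ℚ)⁻¹) := by
    rw [map_inv₀, map_natCast]
    exact eq_inv_of_mul_eq_one_right hu1
  rw [hu2, isIntegral_algebraMap_iff (algebraMap ℚ ℂ).injective,
    IsIntegrallyClosed.isIntegral_iff] at hint
  obtain ⟨n, hn⟩ := hint
  have hpq : (p : ℚ) ≠ 0 := by exact_mod_cast hp.ne_zero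
  have hn2 : (p : ℚ) * (n : ℚ) = 1 := by
    have : (n : ℚ) = (p : ℚ)⁻¹ := by simpa using hn
    rw [this]
    exact mul_inv_cancel₀ hpq
  have hn3 : (p : ℤ) * n = 1 := by exact_mod_cast hn2
  have hn4 : (p : ℤ) ∣ 1 := ⟨n, hn3.symm⟩
  have hn5 : p ∣ 1 := by exact_mod_cast hn4
  exact hp.one_lt.ne' (Nat.dvd_one.1 hn5)

end Pool.Agent.H57.HB

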