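import Pool.Agent.H92.HB.Stm
import Pool.Agent.H57.HB.Val0

/-!
# Module VAL of the project HB
-/

set_option autoImplicit false

namespace Pool.Agent.H57.HB

open Pool.Agent.H92.HB

theorem t_VAL : S_VAL := fun p hp w v hwv I _ Φ hΦ m hm c hc hcm =>
  val0 p hp w v hwv I Φ hΦ m hm c hc hcm

end Pool.Agent.H57.HB
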